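import Mathlib

/-!
# Random primes below `2 ^ b`

`b` random bits choose a prime `p ≤ 2 ^ b`; for every nonzero integer `s` at most
`4 * b * log₂ |s|` of the `2 ^ b` random strings choose a divisor of `s`. Model-free part of the
upper bound of project LK (MP_62fbe0_lc).
-/

set_option autoImplicit false
open Finset

namespace Pool.Agent.Helper93.LK

/-- number of primes up to `2 ^ b` -/
lemma two_pow_le_primes {b : ℕ} (hb : 1 ≤ b) : 2 ^ b ≤ 2 * b * (Nat.primesLE (2 ^ b)).card := by
  rcases Nat.lt_or_ge b 3 with h3 | h3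
  · interval_cases b
    · decide
    · decide
  · have h1 := Chebyshev.psi_ge (2 ^ b)
    have h2 := Chebyshev.psi_le_primeCounting_mul_log (2 ^ b)
    rw [← Nat.primesLE_card_eq_primeCounting] at h2
    set K := (Nat.primesLE (2 ^ b)).card with hK
    have hl2 : 0 < Real.log 2 := Real.log_pos (by norm_num)
    have h3' : Real.log (((2 ^ b : ℕ) : ℝ) + 1) ≤ ((b : ℝ) + 1) * Real.log 2 := by
      have : ((b : ℝ) + 1) * Real.log 2 = Real.log ((2 : ℝ) ^ (b + 1)) := by
        rw [Real.log_pow]; push_cast; ring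
      rw [this]
      apply Real.log_le_log (by positivity)
      push_cast
      have h4 : (1 : ℝ) ≤ 2 ^ b := one_le_pow₀ (by norm_num)
      rw [pow_succ]; linarith
    have h4 : Real.log ((2 ^ b : ℕ) : ℝ) = (b : ℝ) * Real.log 2 := by
      push_cast; rw [Real.log_pow]
    rw [h4] at h2
    have h5 : ((2 ^ b : ℕ) : ℝ) * Real.log 2 - ((b : ℝ) + 1) * Real.log 2 ≤
        (K : ℝ) * ((b : ℝ) * Real.log 2) := by linarith
    have h6 : ((2 ^ b : ℕ) : ℝ) - ((b : ℝ) + 1) ≤ (K : ℝ) * (b : ℝ) := by
      have : (((2 ^ b : ℕ) : ℝ) - ((b : ℝ) + 1)) * Real.log 2 ≤ ((K : ℝ) * (b : ℝ)) * Real.log 2 := by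
        nlinarith [h5]
      exact le_of_mul_le_mul_right this hl2
    have h7 : 2 ^ b ≤ K * b + (b + 1) := by
      have : ((2 ^ b : ℕ) : ℝ) ≤ ((K * b + (b + 1) : ℕ) : ℝ) := by push_cast; push_cast at h6; linarith
      exact_mod_cast this
    have h8 : ∀ m : ℕ, 3 ≤ m → 2 * (m + 1) ≤ 2 ^ m := by
      intro m hm
      induction m, hm using Nat.le_induction with
      | base => norm_num
      | succ m hm ih => rw [pow_succ]; omega
    have h9 := h8 b h3
    have : 2 * b * K = 2 * (K * b) := by ring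
    rw [this]
    omega

/-- number of prime divisors of a nonzero number -/
lemma card_prime_dvd_le {s : ℕ} (hs : s ≠ 0) (P : Finset ℕ) (hP : ∀ p ∈ P, p.Prime ∧ p ∣ s) :
    P.card ≤ Nat.log 2 s := by
  have h1 : P ⊆ s.primeFactors := by
    intro p hp
    rw [Nat.mem_primeFactors]
    exact ⟨(hP p hp).1, (hP p hp).2, hs⟩
  have h2 : ∏ p ∈ P, p ∣ s :=
    (Finset.prod_dvd_prod_of_subset _ _ _ h1).trans (Nat.prod_primeFactors_dvd s)
  have h3 : 2 ^ P.card ≤ ∏ p ∈ P, p := by
    rw [← Finset.prod_const]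
    exact Finset.prod_le_prod' fun p hp => (hP p hp).1.two_le
  exact Nat.le_log_of_pow_le (by norm_num) (h3.trans (Nat.le_of_dvd (Nat.pos_of_ne_zero hs) h2))

/-- the number with given binary digits (any numbering will do) -/
noncomputable def bitsVal {b : ℕ} (ρ : Fin b → Bool) : ℕ := (Fintype.equivFin (Fin b → Bool) ρ : ℕ)

/-- the prime chosen by the random string -/
noncomputable def hashPrime (b : ℕ) (ρ : Fin b → Bool) : ℕ :=
  if h : 0 < (Nat.primesLE (2 ^ b)).card then
    (((Nat.primesLE (2 ^ b)).equivFin.symm ⟨bitsVal ρ % (Nat.primesLE (2 ^ b)).card,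
      Nat.mod_lt _ h⟩ : Nat.primesLE (2 ^ b)) : ℕ)
  else 2

lemma card_primes_pos {b : ℕ} (hb : 1 ≤ b) : 0 < (Nat.primesLE (2 ^ b)).card := by
  have h := two_pow_le_primes hb
  rcases Nat.eq_zero_or_pos (Nat.primesLE (2 ^ b)).card with h0 | h0
  · rw [h0] at h
    have : 0 < 2 ^ b := by positivity
    omega
  · exact h0

lemma hashPrime_mem {b : ℕ} (hb : 1 ≤ b) (ρ : Fin b → Bool) :
    hashPrime b ρ ∈ Nat.primesLE (2 ^ b) := by
  unfold hashPrime
  rw [dif_pos (card_primes_pos hb)]
  exact Subtype.property _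

lemma hashPrime_prime {b : ℕ} (hb : 1 ≤ b) (ρ : Fin b → Bool) : (hashPrime b ρ).Prime :=
  (Nat.mem_primesLE.mp (hashPrime_mem hb ρ)).2

lemma hashPrime_le {b : ℕ} (hb : 1 ≤ b) (ρ : Fin b → Bool) : hashPrime b ρ ≤ 2 ^ b :=
  (Nat.mem_primesLE.mp (hashPrime_mem hb ρ)).1

/-- numbers below `M` in a residue class mod `K` -/
lemma card_mod_eq_le {M K : ℕ} (hK : 0 < K) (hKM : K ≤ M) (i : ℕ) :
    ((range M).filter fun v => v % K = i).card * K ≤ 2 * M := by
  have h1 : ((range M).filter fun v => v % K = i).card ≤ M / K + 1 := by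
    have : ((range M).filter fun v => v % K = i).card ≤ (range (M / K + 1)).card := by
      apply Finset.card_le_card_of_injOn (fun v => v / K)
      · intro v hv
        simp only [coe_filter, Finset.mem_range, Set.mem_ofPred_eq, coe_range, Set.mem_Iio] at hv ⊢
        have := Nat.div_le_div_right (c := K) hv.1.le
        omega
      · intro v hv v' hv' h
        simp only [coe_filter, Finset.mem_range, Set.mem_ofPred_eq] at hv hv'
        have h2 := Nat.div_add_mod v K
        have h3 := Nat.div_add_mod v' K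
        simp only at h
        rw [hv.2, h] at h2
        rw [hv'.2] at h3
        omega
    simpa using this
  calc _ ≤ (M / K + 1) * K := Nat.mul_le_mul_right _ h1
    _ = M / K * K + K := by ring
    _ ≤ 2 * M := by
        have := Nat.div_mul_le_self M K
        omega

/-- each prime is chosen by at most `2 * 2 ^ b / K` strings -/
lemma card_hash_eq_le {b : ℕ} (hb : 1 ≤ b) (p : ℕ) :
    (univ.filter fun ρ : Fin b → Bool => hashPrime b ρ = p).card * (Nat.primesLE (2 ^ b)).card ≤
      2 * 2 ^ b := by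
  classical
  set K := (Nat.primesLE (2 ^ b)).card with hK
  have hKpos : 0 < K := card_primes_pos hb
  have hKM : K ≤ 2 ^ b := by
    have : (Nat.primesLE (2 ^ b)) ⊆ Finset.Icc 1 (2 ^ b) := by
      intro q hq
      rw [Nat.mem_primesLE] at hq
      rw [Finset.mem_Icc]
      exact ⟨hq.2.one_lt.le, hq.1⟩
    have h := Finset.card_le_card this
    rw [Nat.card_Icc] at h
    omega
  by_cases hp : p ∈ Nat.primesLE (2 ^ b)
  · obtain ⟨i, hi⟩ : ∃ i : Fin K, (Nat.primesLE (2 ^ b)).equivFin ⟨p, hp⟩ = i := ⟨_, rfl⟩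
    have h1 : (univ.filter fun ρ : Fin b → Bool => hashPrime b ρ = p).card ≤
        ((range (2 ^ b)).filter fun v => v % K = i).card := by
      apply Finset.card_le_card_of_injOn bitsVal
      · intro ρ hρ
        simp only [coe_filter, Finset.mem_univ, true_and, Set.mem_ofPred_eq, Finset.mem_range] at hρ ⊢
        refine ⟨?_, ?_⟩
        · have := (Fintype.equivFin (Fin b → Bool) ρ).isLt
          have hc : Fintype.card (Fin b → Bool) = 2 ^ b := by simp
          unfold bitsVal
          omega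
        · unfold hashPrime at hρ
          rw [dif_pos hKpos] at hρ
          have h2 : (Nat.primesLE (2 ^ b)).equivFin.symm ⟨bitsVal ρ % K, Nat.mod_lt _ hKpos⟩ =
              ⟨p, hp⟩ := Subtype.ext hρ
          rw [Equiv.symm_apply_eq, hi] at h2
          exact congrArg Fin.val h2
      · intro ρ _ ρ' _ h
        unfold bitsVal at h
        exact (Fintype.equivFin _).injective (Fin.ext h)
    calc _ ≤ ((range (2 ^ b)).filter fun v => v % K = i).card * K := Nat.mul_le_mul_right _ h1
      _ ≤ 2 * 2 ^ b := card_mod_eq_le hKpos hKM _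
  · have : (univ.filter fun ρ : Fin b → Bool => hashPrime b ρ = p) = ∅ := by
      rw [Finset.filter_eq_empty_iff]
      intro ρ _ h
      exact hp (h ▸ hashPrime_mem hb ρ)
    rw [this]
    simp

/-- **Few random strings choose a divisor of a given nonzero number.** -/
theorem card_hash_dvd_le {b : ℕ} (hb : 1 ≤ b) {s : ℕ} (hs : s ≠ 0) :
    (univ.filter fun ρ : Fin b → Bool => hashPrime b ρ ∣ s).card ≤ 4 * b * Nat.log 2 s := by
  classical
  set K := (Nat.primesLE (2 ^ b)).card with hK
  have hKpos : 0 < K := card_primes_pos hb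
  set P := (Nat.primesLE (2 ^ b)).filter fun p => p ∣ s with hP
  have hPc : P.card ≤ Nat.log 2 s := by
    apply card_prime_dvd_le hs
    intro p hp
    rw [hP, mem_filter, Nat.mem_primesLE] at hp
    exact ⟨hp.1.2, hp.2⟩
  have h1 : (univ.filter fun ρ : Fin b → Bool => hashPrime b ρ ∣ s).card ≤
      ∑ p ∈ P, (univ.filter fun ρ : Fin b → Bool => hashPrime b ρ = p).card := by
    rw [← Finset.card_sigma]
    apply Finset.card_le_card_of_injOn (fun ρ => (⟨hashPrime b ρ, ρ⟩ : Σ _ : ℕ, (Fin b → Bool)))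
    · intro ρ hρ
      simp only [coe_filter, Finset.mem_univ, true_and, Set.mem_ofPred_eq] at hρ
      simp only [coe_sigma, Set.mem_sigma_iff, Finset.mem_coe, hP, mem_filter, Finset.mem_univ,
        and_true]
      exact ⟨hashPrime_mem hb ρ, hρ⟩
    · intro ρ _ ρ' _ h
      simp only [Sigma.mk.injEq, heq_eq_eq] at h
      exact h.2
  have h2 : (univ.filter fun ρ : Fin b → Bool => hashPrime b ρ ∣ s).card * K ≤
      P.card * (2 * 2 ^ b) := by
    calc _ ≤ (∑ p ∈ P, (univ.filter fun ρ : Fin b → Bool => hashPrime b ρ = p).card) * K :=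
          Nat.mul_le_mul_right _ h1
      _ = ∑ p ∈ P, (univ.filter fun ρ : Fin b → Bool => hashPrime b ρ = p).card * K := by
          rw [Finset.sum_mul]
      _ ≤ ∑ p ∈ P, 2 * 2 ^ b := Finset.sum_le_sum fun p _ => card_hash_eq_le hb p
      _ = P.card * (2 * 2 ^ b) := by rw [Finset.sum_const, smul_eq_mul]
  have h3 := two_pow_le_primes hb
  have h4 : (univ.filter fun ρ : Fin b → Bool => hashPrime b ρ ∣ s).card * K ≤
      (4 * b * Nat.log 2 s) * K := by
    calc _ ≤ P.card * (2 * 2 ^ b) := h2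
      _ ≤ Nat.log 2 s * (2 * (2 * b * K)) :=
          Nat.mul_le_mul hPc (Nat.mul_le_mul_left _ h3)
      _ = (4 * b * Nat.log 2 s) * K := by ring
  exact Nat.le_of_mul_le_mul_right h4 hKpos

open Classical in
/-- **Markov.** For a family of integers of size at most `B`, at most one third of the random
strings make more than `12 m b log₂ B / 2 ^ b` of its nonzero members divisible by the chosen
prime (`m` = size of the family). -/
theorem few_false {b : ℕ} (hb : 1 ≤ b) {ι : Type*} (S : Finset ι) (s : ι → ℤ) {B : ℕ}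
    (hB : ∀ T ∈ S, (s T).natAbs ≤ B) :
    3 * (univ.filter fun ρ : Fin b → Bool =>
      12 * S.card * b * Nat.log 2 B / 2 ^ b <
        (S.filter fun T => s T ≠ 0 ∧ ((hashPrime b ρ : ℕ) : ℤ) ∣ s T).card).card ≤ 2 ^ b := by
  set F := 12 * S.card * b * Nat.log 2 B / 2 ^ b with hF
  set bad := univ.filter fun ρ : Fin b → Bool =>
      F < (S.filter fun T => s T ≠ 0 ∧ ((hashPrime b ρ : ℕ) : ℤ) ∣ s T).card with hbad
  have h1 : bad.card * (F + 1) ≤ S.card * (4 * b * Nat.log 2 B) := by
    calc bad.card * (F + 1) = ∑ ρ ∈ bad, (F + 1) := by rw [Finset.sum_const, smul_eq_mul]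
      _ ≤ ∑ ρ ∈ bad, (S.filter fun T => s T ≠ 0 ∧ ((hashPrime b ρ : ℕ) : ℤ) ∣ s T).card := by
          apply Finset.sum_le_sum
          intro ρ hρ
          rw [hbad, mem_filter] at hρ
          exact hρ.2
      _ ≤ ∑ ρ : Fin b → Bool,
          (S.filter fun T => s T ≠ 0 ∧ ((hashPrime b ρ : ℕ) : ℤ) ∣ s T).card :=
          Finset.sum_le_sum_of_subset (Finset.subset_univ _)
      _ = ∑ T ∈ S, (univ.filter fun ρ : Fin b → Bool =>
          s T ≠ 0 ∧ ((hashPrime b ρ : ℕ) : ℤ) ∣ s T).card := by
          simp only [Finset.card_filter]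
          rw [Finset.sum_comm]
      _ ≤ ∑ T ∈ S, 4 * b * Nat.log 2 B := by
          apply Finset.sum_le_sum
          intro T hT
          by_cases h0 : s T = 0
          · simp [h0]
          · have h2 : (univ.filter fun ρ : Fin b → Bool =>
                s T ≠ 0 ∧ ((hashPrime b ρ : ℕ) : ℤ) ∣ s T) =
                univ.filter fun ρ : Fin b → Bool => hashPrime b ρ ∣ (s T).natAbs := by
              apply Finset.filter_congr
              intro ρ _
              rw [Int.natCast_dvd]
              exact ⟨fun h => h.2, fun h => ⟨h0, h⟩⟩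
            rw [h2]
            refine (card_hash_dvd_le hb (by simpa using h0)).trans ?_
            exact Nat.mul_le_mul_left _ (Nat.log_mono_right (hB T hT))
      _ = S.card * (4 * b * Nat.log 2 B) := by rw [Finset.sum_const, smul_eq_mul]
  have h2 : 12 * S.card * b * Nat.log 2 B < 2 ^ b * (F + 1) := by
    have h3 := Nat.div_add_mod (12 * S.card * b * Nat.log 2 B) (2 ^ b)
    have h4 := Nat.mod_lt (12 * S.card * b * Nat.log 2 B) (show 0 < 2 ^ b by positivity)
    rw [← hF] at h3
    have : 2 ^ b * (F + 1) = 2 ^ b * F + 2 ^ b := by ring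
    omega
  by_contra hcon
  push Not at hcon
  have h5 : 2 ^ b * (F + 1) ≤ 3 * bad.card * (F + 1) := Nat.mul_le_mul_right _ hcon.le
  have h6 : 3 * bad.card * (F + 1) ≤ 12 * S.card * b * Nat.log 2 B := by
    calc 3 * bad.card * (F + 1) = 3 * (bad.card * (F + 1)) := by ring
      _ ≤ 3 * (S.card * (4 * b * Nat.log 2 B)) := Nat.mul_le_mul_left _ h1
      _ = _ := by ring
  omega

end Pool.Agent.Helper93.LK
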