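import Mathlib
import Pool.Agent.Helper8.LK.Defs
import Pool.Agent.Helper93.LK.PrimeHash

/-!
# Upper bound for project LK (MP_62fbe0_lc)

With `b` digest bits per weight (the binary digits of the residue modulo a random prime
`p ≤ 2 ^ b`), `F / d + 2` value queries of degree at most `d` decide Exact Triangle with
probability at least `2/3`, where `F = n ^ 3` or `F ≥ 12 n ^ 3 b log₂ (3 n ^ 300) / 2 ^ b`.
-/

set_option autoImplicit false
open Finset

namespace Pool.Agent.Helper93.LK

open Pool.Agent.Helper22.ETModel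
open Pool.Agent.Helper8.LK

/-! ### lists and digits -/

lemma found {α : Type*} (l : List α) (zero : α → Prop) [DecidablePred zero] {F G d : ℕ}
    (hG : F + 1 ≤ G * d) (hfalse : (l.filter fun T => ¬ zero T).length ≤ F)
    (hex : ∃ T ∈ l, zero T) (hd : 0 < d) : ∃ g < G, ∃ T ∈ (l.drop (g * d)).take d, zero T := by
  have key : ∃ T ∈ l.take (G * d), zero T := by
    by_contra hcon
    push Not at hcon
    by_cases hl : l.length ≤ G * d
    · rw [List.take_of_length_le hl] at hcon
      obtain ⟨T, hT, hz⟩ := hex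
      exact hcon T hT hz
    · have h1 : (l.take (G * d)).filter (fun T => ¬ zero T) = l.take (G * d) := by
        rw [List.filter_eq_self]
        intro T hT
        simpa using hcon T hT
      have h2 : ((l.take (G * d)).filter fun T => ¬ zero T).length ≤
          (l.filter fun T => ¬ zero T).length :=
        ((List.take_sublist _ _).filter _).length_le
      rw [h1, List.length_take] at h2
      omega
  obtain ⟨T, hT, hz⟩ := key
  obtain ⟨m, hm, rfl⟩ := List.mem_take_iff_getElem.mp hT
  have hm' : m < G * d := lt_of_lt_of_le hm (min_le_left _ _)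
  have hml : m < l.length := lt_of_lt_of_le hm (min_le_right _ _)
  refine ⟨m / d, (Nat.div_lt_iff_lt_mul hd).mpr hm', l[m], ?_, hz⟩
  rw [List.mem_take_iff_getElem]
  have h3 := Nat.div_add_mod m d
  have h4 := Nat.mod_lt m hd
  have h5 : m / d * d + m % d = m := by rw [mul_comm]; exact h3
  refine ⟨m % d, ?_, ?_⟩
  · rw [List.length_drop]
    exact lt_min h4 (by omega)
  · rw [List.getElem_drop]
    congr 1

lemma sum_testBit (x : ℕ) : ∀ b : ℕ,
    ∑ s ∈ range b, (x.testBit s).toNat * 2 ^ s = x % 2 ^ b := by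
  intro b
  induction b with
  | zero => simp [Nat.mod_one]
  | succ b ih =>
    rw [Finset.sum_range_succ, ih, Nat.mod_pow_succ]
    congr 1
    rw [Nat.testBit_eq_decide_div_mod_eq]
    have h := Nat.mod_lt (x / 2 ^ b) (show 0 < 2 by norm_num)
    rcases Nat.lt_or_ge 0 (x / 2 ^ b % 2) with h1 | h1
    · have h2 : x / 2 ^ b % 2 = 1 := by omega
      simp [h2]
    · have h2 : x / 2 ^ b % 2 = 0 := by omega
      simp [h2]

/-! ### the algorithm -/

variable {n : ℕ}

/-- the cells that are read -/
abbrev Cell (n : ℕ) := {e : Fin n × Fin n // e.1 < e.2}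

/-- number of cells that are read -/
abbrev nC (n : ℕ) : ℕ := Fintype.card (Cell n)

/-- number of a cell -/
noncomputable def cidx (e : Cell n) : ℕ := (Fintype.equivFin (Cell n) e : ℕ)

lemma cidx_lt (e : Cell n) : cidx e < nC n := (Fintype.equivFin (Cell n) e).isLt

/-- the number encoded by the answers at positions `m * b, ..., m * b + b - 1` -/
def word (b : ℕ) (ans : List ℕ) (m : ℕ) : ℕ := ∑ s ∈ range b, ans.getD (m * b + s) 0 * 2 ^ s

/-- the residue of the weight of the cell `{i, j}` as read from the answers -/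
noncomputable def rd (b : ℕ) (ans : List ℕ) (i j : Fin n) : ℕ :=
  if h : i < j then word b ans (cidx ⟨(i, j), h⟩)
  else if h : j < i then word b ans (cidx ⟨(j, i), h⟩) else 0

/-- triangles of edges (ordered triples) -/
def IsTri (fl : Fin n → Fin n → Bool) (T : Fin n × Fin n × Fin n) : Prop :=
  T.1 ≠ T.2.1 ∧ T.2.1 ≠ T.2.2 ∧ T.1 ≠ T.2.2 ∧
    fl T.1 T.2.1 = true ∧ fl T.2.1 T.2.2 = true ∧ fl T.1 T.2.2 = true

open Classical in
/-- the residue-consistent triangles -/
noncomputable def cons (b p : ℕ) (fl : Fin n → Fin n → Bool) (ans : List ℕ) :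
    List (Fin n × Fin n × Fin n) :=
  (univ.filter fun T : Fin n × Fin n × Fin n => IsTri fl T ∧
    p ∣ rd b ans T.1 T.2.1 + rd b ans T.2.1 T.2.2 + rd b ans T.1 T.2.2).toList

/-- triangle form -/
noncomputable def form (T : Fin n × Fin n × Fin n) : MvPolynomial (Fin n × Fin n) ℝ :=
  MvPolynomial.X (T.1, T.2.1) + MvPolynomial.X (T.2.1, T.2.2) + MvPolynomial.X (T.1, T.2.2)

/-- weight of a triangle -/
def sW (I : Inst n) (T : Fin n × Fin n × Fin n) : ℤ :=
  I.wt T.1 T.2.1 + I.wt T.2.1 T.2.2 + I.wt T.1 T.2.2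

lemma totalDegree_form (T : Fin n × Fin n × Fin n) : (form T).totalDegree ≤ 1 := by
  unfold form
  refine (MvPolynomial.totalDegree_add _ _).trans (max_le ?_ ?_)
  · refine (MvPolynomial.totalDegree_add _ _).trans (max_le ?_ ?_)
    · rw [MvPolynomial.totalDegree_X]
    · rw [MvPolynomial.totalDegree_X]
  · rw [MvPolynomial.totalDegree_X]

lemma totalDegree_prod_form (l : List (Fin n × Fin n × Fin n)) :
    ((l.map form).prod).totalDegree ≤ l.length := by
  induction l with
  | nil => simp
  | cons T l ih =>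
    rw [List.map_cons, List.prod_cons, List.length_cons]
    refine (MvPolynomial.totalDegree_mul _ _).trans ?_
    have := totalDegree_form T
    omega

lemma evalP_prod_form (I : Inst n) (l : List (Fin n × Fin n × Fin n)) :
    evalP ((l.map form).prod) I = 0 ↔ ∃ T ∈ l, sW I T = 0 := by
  induction l with
  | nil => simp [evalP]
  | cons T l ih =>
    rw [List.map_cons, List.prod_cons]
    have h1 : evalP (form T * (l.map form).prod) I =
        evalP (form T) I * evalP ((l.map form).prod) I := by
      unfold evalP; rw [map_mul]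
    have h2 : evalP (form T) I = ((sW I T : ℤ) : ℝ) := by
      unfold evalP form sW
      simp only [map_add, MvPolynomial.eval_X]
      push_cast
      ring
    rw [h1, mul_eq_zero, ih, h2]
    simp only [List.mem_cons, exists_eq_or_imp, Int.cast_eq_zero]

/-- the polynomial asked in step `t` of the second phase -/
noncomputable def poly (b d p : ℕ) (fl : Fin n → Fin n → Bool) (W : List ℕ) (t : ℕ) :
    MvPolynomial (Fin n × Fin n) ℝ :=
  if t = 0 then 0 else (((((cons b p fl W).drop ((t - 1) * d)).take d)).map form).prod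

lemma totalDegree_poly (b d p : ℕ) (fl : Fin n → Fin n → Bool) (W : List ℕ) (t : ℕ) :
    (poly b d p fl W t).totalDegree ≤ d := by
  unfold poly
  split_ifs
  · simp
  · refine (totalDegree_prod_form _).trans ?_
    rw [List.length_take]
    exact min_le_left _ _

/-- the cell read in step `t` -/
noncomputable def cellAt (b : ℕ) (t : ℕ) (h : t < nC n * b) : Cell n :=
  (Fintype.equivFin (Cell n)).symm ⟨t / b, Nat.div_lt_of_lt_mul (by rwa [mul_comm] at h)⟩

open Classical in
/-- the algorithm: reads the residues modulo a random prime, then tests the consistent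
triangles, `d` at a time -/
noncomputable def upAlg (n b d D : ℕ) : LAlg n (nC n * b + D) b where
  next := fun fl ρ ans =>
    if h : ans.length < nC n * b then
      Act.bit (cellAt b ans.length h).1.1 (cellAt b ans.length h).1.2
        (fun z => (z % (hashPrime b ρ : ℤ)).toNat.testBit (ans.length % b))
    else Act.query (Query.value
      (poly b d (hashPrime b ρ) fl (ans.take (nC n * b)) (ans.length - nC n * b)))
  out := fun _ _ ans => decide (∃ t, nC n * b + 1 ≤ t ∧ ans[t]? = some 0)

/-- the answer to the bit query in step `t` -/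
noncomputable def bitAns (b : ℕ) (ρ : Fin b → Bool) (I : Inst n) (t : ℕ) : ℕ :=
  if h : t < nC n * b then
    ((I.wt (cellAt b t h).1.1 (cellAt b t h).1.2 % (hashPrime b ρ : ℤ)).toNat.testBit
      (t % b)).toNat
  else 0

/-- the list of all bits -/
noncomputable def bitList (b : ℕ) (ρ : Fin b → Bool) (I : Inst n) : List ℕ :=
  (List.range (nC n * b)).map (bitAns b ρ I)

lemma length_bitList (b : ℕ) (ρ : Fin b → Bool) (I : Inst n) :
    (bitList b ρ I).length = nC n * b := by simp [bitList]

/-- first phase -/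
lemma run_phase1 (b d D : ℕ) (ρ : Fin b → Bool) (I : Inst n) : ∀ t : ℕ, t ≤ nC n * b →
    (upAlg n b d D).run I ρ t = ((List.range t).map (bitAns b ρ I), []) := by
  intro t
  induction t with
  | zero => intro _; simp [LAlg.run]
  | succ t ih =>
    intro ht
    have ht' : t < nC n * b := ht
    rw [LAlg.run, ih ht'.le]
    have hlen : ((List.range t).map (bitAns b ρ I)).length = t := by simp
    have hnext : (upAlg n b d D).next I.flag ρ ((List.range t).map (bitAns b ρ I)) =
        Act.bit (cellAt b t ht').1.1 (cellAt b t ht').1.2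
        (fun z => (z % (hashPrime b ρ : ℤ)).toNat.testBit (t % b)) := by
      have h1 : ∀ (ans : List ℕ) (hl : ans.length = t), (upAlg n b d D).next I.flag ρ ans =
          Act.bit (cellAt b t ht').1.1 (cellAt b t ht').1.2
          (fun z => (z % (hashPrime b ρ : ℤ)).toNat.testBit (t % b)) := by
        intro ans hl
        subst hl
        unfold upAlg
        simp only
        rw [dif_pos ht']
      exact h1 _ hlen
    rw [hnext]
    simp only [act]
    rw [List.range_succ, List.map_append, List.map_singleton]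
    have h2 : bitAns b ρ I t = ((I.wt (cellAt b t ht').1.1 (cellAt b t ht').1.2 %
        (hashPrime b ρ : ℤ)).toNat.testBit (t % b)).toNat := by
      unfold bitAns
      rw [dif_pos ht']
    rw [h2]

/-- second phase -/
lemma run_phase2 (b d D : ℕ) (ρ : Fin b → Bool) (I : Inst n) : ∀ t : ℕ,
    ∃ as : List ℕ, ((upAlg n b d D).run I ρ (nC n * b + t)).1 = bitList b ρ I ++ as ∧
      as.length = t ∧
      (t = 0 → ((upAlg n b d D).run I ρ (nC n * b + t)).2 = []) ∧
      (1 ≤ t → ∃ vs, ((upAlg n b d D).run I ρ (nC n * b + t)).2 = 0 :: vs) ∧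
      ∀ s, 1 ≤ s → s < t → (as[s]? = some 0 ↔
        evalP (poly b d (hashPrime b ρ) I.flag (bitList b ρ I) s) I = 0) := by
  intro t
  induction t with
  | zero =>
    refine ⟨[], ?_, rfl, ?_, by omega, by omega⟩
    · rw [Nat.add_zero, run_phase1 b d D ρ I _ le_rfl]
      simp [bitList]
    · intro _
      rw [Nat.add_zero, run_phase1 b d D ρ I _ le_rfl]
  | succ t ih =>
    obtain ⟨as, h1, h2, h3, h4, h5⟩ := ih
    have hnext : (upAlg n b d D).next I.flag ρ ((upAlg n b d D).run I ρ (nC n * b + t)).1 =
        Act.query (Query.value (poly b d (hashPrime b ρ) I.flag (bitList b ρ I) t)) := by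
      rw [h1]
      unfold upAlg
      simp only
      have hl : (bitList b ρ I ++ as).length = nC n * b + t := by
        rw [List.length_append, length_bitList, h2]
      rw [dif_neg (by rw [hl]; omega), hl, Nat.add_sub_cancel_left,
        List.take_append_of_le_length (by rw [length_bitList]),
        List.take_of_length_le (by rw [length_bitList])]
    set v : ℝ := evalP (poly b d (hashPrime b ρ) I.flag (bitList b ρ I) t) I with hv
    have hrun : (upAlg n b d D).run I ρ (nC n * b + (t + 1)) =
        (((upAlg n b d D).run I ρ (nC n * b + t)).1 ++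
          [((upAlg n b d D).run I ρ (nC n * b + t)).2.idxOf v],
          ((upAlg n b d D).run I ρ (nC n * b + t)).2 ++ [v]) := by
      rw [← Nat.add_assoc, LAlg.run, hnext]
      simp only [act, step]
      rfl
    refine ⟨as ++ [((upAlg n b d D).run I ρ (nC n * b + t)).2.idxOf v], ?_, ?_, by omega, ?_, ?_⟩
    · rw [hrun, h1]
      simp only [List.append_assoc]
    · rw [List.length_append, h2]; rfl
    · intro _
      rw [hrun]
      rcases Nat.eq_zero_or_pos t with h0 | hpos
      · rw [h3 h0]
        have : v = 0 := by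
          rw [hv, h0]
          unfold poly evalP
          simp
        exact ⟨[], by simp [this]⟩
      · obtain ⟨vs, hvs⟩ := h4 hpos
        simp only
        rw [hvs]
        exact ⟨_, by rw [List.cons_append]⟩
    · intro s hs hst
      by_cases hst' : s < t
      · rw [List.getElem?_append_left (by omega)]
        exact h5 s hs hst'
      · have hst2 : s = t := by omega
        subst hst2
        obtain ⟨vs, hvs⟩ := h4 hs
        rw [List.getElem?_append_right (by omega), h2, Nat.sub_self, hvs]
        simp only [List.getElem?_cons_zero, Option.some.injEq]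
        rw [← hv]
        constructor
        · intro h6
          by_contra hne
          rw [List.idxOf_cons_ne _ (fun h => hne h.symm)] at h6
          exact absurd h6 (Nat.succ_ne_zero _)
        · intro h6
          rw [h6]
          exact List.idxOf_cons_self

/-! ### correctness -/

lemma word_bitList {b : ℕ} (ρ : Fin b → Bool) (I : Inst n) (e : Cell n) :
    word b (bitList b ρ I) (cidx e) =
      (I.wt e.1.1 e.1.2 % (hashPrime b ρ : ℤ)).toNat % 2 ^ b := by
  rw [← sum_testBit]
  unfold word
  apply Finset.sum_congr rfl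
  intro s hs
  rw [Finset.mem_range] at hs
  congr 1
  have hlt : cidx e * b + s < nC n * b := by
    have h1 := cidx_lt e
    have h2 : (cidx e + 1) * b ≤ nC n * b := Nat.mul_le_mul_right b h1
    have h3 : (cidx e + 1) * b = cidx e * b + b := by ring
    omega
  have hget : (bitList b ρ I).getD (cidx e * b + s) 0 = bitAns b ρ I (cidx e * b + s) := by
    unfold bitList
    rw [List.getD_eq_getElem?_getD, List.getElem?_map, List.getElem?_range hlt]
    rfl
  have hdiv : (cidx e * b + s) / b = cidx e := by
    rw [Nat.mul_comm, Nat.mul_add_div (by omega), Nat.div_eq_of_lt hs, Nat.add_zero]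
  have hmod : (cidx e * b + s) % b = s := by
    rw [Nat.mul_comm, Nat.mul_add_mod, Nat.mod_eq_of_lt hs]
  have hcell : cellAt b (cidx e * b + s) hlt = e := by
    unfold cellAt
    rw [Equiv.symm_apply_eq]
    apply Fin.ext
    exact hdiv
  rw [hget]
  unfold bitAns
  rw [dif_pos hlt, hcell, hmod]

lemma rd_bitList {b : ℕ} (hb : 1 ≤ b) (ρ : Fin b → Bool) {I : Inst n} (hI : I.Valid)
    {i j : Fin n} (hij : i ≠ j) :
    ((rd b (bitList b ρ I) i j : ℕ) : ℤ) = I.wt i j % (hashPrime b ρ : ℤ) := by
  have hp := hashPrime_prime hb ρ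
  have hpos : (0 : ℤ) < (hashPrime b ρ : ℤ) := by exact_mod_cast hp.pos
  have hle := hashPrime_le hb ρ
  have key : ∀ z : ℤ, ((((z % (hashPrime b ρ : ℤ)).toNat % 2 ^ b : ℕ)) : ℤ) =
      z % (hashPrime b ρ : ℤ) := by
    intro z
    have h1 := Int.emod_nonneg z hpos.ne'
    have h2 := Int.emod_lt_of_pos z hpos
    have h3 : (z % (hashPrime b ρ : ℤ)).toNat < 2 ^ b := by
      have h4 : (z % (hashPrime b ρ : ℤ)).toNat < hashPrime b ρ := by
        rw [Int.toNat_lt h1]; exact h2
      omega
    rw [Nat.mod_eq_of_lt h3]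
    exact Int.toNat_of_nonneg h1
  unfold rd
  rcases lt_or_gt_of_ne hij with h | h
  · rw [dif_pos h, word_bitList]
    exact key _
  · rw [dif_neg (not_lt.mpr h.le), dif_pos h, word_bitList]
    simp only
    rw [hI.2.2.1 i j]
    exact key _

lemma mem_cons {b : ℕ} (ρ : Fin b → Bool) {I : Inst n} (hI : I.Valid) (hb : 1 ≤ b)
    (T : Fin n × Fin n × Fin n) :
    T ∈ cons b (hashPrime b ρ) I.flag (bitList b ρ I) ↔
      IsTri I.flag T ∧ (hashPrime b ρ : ℤ) ∣ sW I T := by
  classical
  unfold cons
  rw [Finset.mem_toList, mem_filter]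
  simp only [Finset.mem_univ, true_and]
  apply and_congr_right
  intro hT
  rw [← Int.natCast_dvd_natCast]
  push_cast
  rw [rd_bitList hb ρ hI hT.1, rd_bitList hb ρ hI hT.2.1, rd_bitList hb ρ hI hT.2.2.1]
  unfold sW
  rw [Int.dvd_iff_emod_eq_zero, Int.dvd_iff_emod_eq_zero]
  constructor
  · intro h
    rw [← h]
    simp [Int.add_emod]
  · intro h
    rw [← h]
    simp [Int.add_emod]

lemma mem_cons_zero {b : ℕ} (hb : b = 0) (p : ℕ) (I : Inst n) (W : List ℕ)
    (T : Fin n × Fin n × Fin n) : T ∈ cons b p I.flag W ↔ IsTri I.flag T := by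
  classical
  subst hb
  unfold cons
  rw [Finset.mem_toList, mem_filter]
  simp [rd, word]

/-- every zero triangle is consistent -/
lemma mem_cons_of_zero {b : ℕ} (ρ : Fin b → Bool) {I : Inst n} (hI : I.Valid)
    {T : Fin n × Fin n × Fin n} (hT : IsTri I.flag T) (h0 : sW I T = 0) :
    T ∈ cons b (hashPrime b ρ) I.flag (bitList b ρ I) := by
  rcases Nat.eq_zero_or_pos b with hb | hb
  · rw [mem_cons_zero hb]; exact hT
  · rw [mem_cons ρ hI hb]
    exact ⟨hT, by rw [h0]; exact dvd_zero _⟩

lemma isTri_of_mem_cons {b p : ℕ} {fl : Fin n → Fin n → Bool} {W : List ℕ}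
    {T : Fin n × Fin n × Fin n} (h : T ∈ cons b p fl W) : IsTri fl T := by
  classical
  unfold cons at h
  rw [Finset.mem_toList, mem_filter] at h
  exact h.2.1

open Classical in
/-- number of false candidates -/
noncomputable def falseCount {b : ℕ} (ρ : Fin b → Bool) (I : Inst n) : ℕ :=
  ((cons b (hashPrime b ρ) I.flag (bitList b ρ I)).filter fun T => ¬ sW I T = 0).length

lemma output_iff {b d F : ℕ} (hd : 1 ≤ d) (ρ : Fin b → Bool) {I : Inst n} (hI : I.Valid)
    (hF : falseCount ρ I ≤ F) : ((upAlg n b d (F / d + 2)).output I ρ = true ↔ I.Yes) := by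
  classical
  obtain ⟨as, h1, h2, _, _, h5⟩ := run_phase2 b d (F / d + 2) ρ I (F / d + 2)
  unfold LAlg.output
  rw [h1]
  show decide _ = true ↔ _
  rw [decide_eq_true_iff]
  have hget : ∀ t, nC n * b + 1 ≤ t → ((bitList b ρ I ++ as)[t]? = as[t - nC n * b]?) := by
    intro t ht
    rw [List.getElem?_append_right (by rw [length_bitList]; omega), length_bitList]
  have hyes : I.Yes ↔ ∃ T, IsTri I.flag T ∧ sW I T = 0 := by
    unfold Inst.Yes IsTri sW
    constructor
    · rintro ⟨i, j, k, g1, g2, g3, g4, g5, g6, g7⟩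
      exact ⟨(i, j, k), ⟨g1, g2, g3, g4, g5, g6⟩, g7⟩
    · rintro ⟨⟨i, j, k⟩, ⟨g1, g2, g3, g4, g5, g6⟩, g7⟩
      exact ⟨i, j, k, g1, g2, g3, g4, g5, g6, g7⟩
  rw [hyes]
  constructor
  · rintro ⟨t, ht, ht'⟩
    rw [hget t ht] at ht'
    set s := t - nC n * b with hs
    have hs1 : 1 ≤ s := by omega
    have hslt : s < F / d + 2 := by
      by_contra hcon
      rw [List.getElem?_eq_none (by omega)] at ht'
      exact absurd ht' (by simp)
    rw [h5 s hs1 hslt] at ht'
    unfold poly at ht'
    rw [if_neg (by omega), evalP_prod_form] at ht'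
    obtain ⟨T, hT, h0⟩ := ht'
    exact ⟨T, isTri_of_mem_cons (List.mem_of_mem_drop (List.mem_of_mem_take hT)), h0⟩
  · rintro ⟨T, hT, h0⟩
    have hG : F + 1 ≤ (F / d + 1) * d := by
      have h6 := Nat.div_add_mod F d
      have h7 := Nat.mod_lt F hd
      have h8 : (F / d + 1) * d = d * (F / d) + d := by ring
      omega
    obtain ⟨g, hg, T', hT', h0'⟩ := found (cons b (hashPrime b ρ) I.flag (bitList b ρ I))
      (fun T => sW I T = 0) hG hF ⟨T, mem_cons_of_zero ρ hI hT h0, h0⟩ hd
    refine ⟨nC n * b + (g + 1), by omega, ?_⟩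
    rw [hget _ (by omega), Nat.add_sub_cancel_left, h5 (g + 1) (by omega) (by omega)]
    unfold poly
    rw [if_neg (by omega), evalP_prod_form, Nat.add_sub_cancel]
    exact ⟨T', hT', h0'⟩

lemma falseCount_le_cube {b : ℕ} (ρ : Fin b → Bool) (I : Inst n) : falseCount ρ I ≤ n ^ 3 := by
  classical
  unfold falseCount
  refine (List.length_filter_le _ _).trans ?_
  unfold cons
  rw [Finset.length_toList]
  refine (Finset.card_le_univ _).trans ?_
  simp only [Fintype.card_prod, Fintype.card_fin]
  apply le_of_eq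
  ring

lemma falseCount_eq {b : ℕ} (hb : 1 ≤ b) (ρ : Fin b → Bool) {I : Inst n} (hI : I.Valid) :
    falseCount ρ I = by
      classical
      exact ((univ.filter fun T : Fin n × Fin n × Fin n => IsTri I.flag T).filter
        fun T => sW I T ≠ 0 ∧ ((hashPrime b ρ : ℕ) : ℤ) ∣ sW I T).card := by
  classical
  unfold falseCount
  have hnd : ((cons b (hashPrime b ρ) I.flag (bitList b ρ I)).filter
      fun T => ¬ sW I T = 0).Nodup := by
    apply List.Nodup.filter
    unfold cons
    exact Finset.nodup_toList _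
  rw [← List.toFinset_card_of_nodup hnd]
  congr 1
  ext T
  rw [List.mem_toFinset, List.mem_filter, mem_cons ρ hI hb]
  simp only [mem_filter, Finset.mem_univ, true_and, decide_eq_true_eq, ne_eq]
  tauto

lemma sW_le {I : Inst n} (hI : I.Valid) (T : Fin n × Fin n × Fin n) :
    (sW I T).natAbs ≤ 3 * n ^ 300 := by
  have h := hI.2.2.2
  have h1 := abs_le.mp (h T.1 T.2.1)
  have h2 := abs_le.mp (h T.2.1 T.2.2)
  have h3 := abs_le.mp (h T.1 T.2.2)
  have h4 : |sW I T| ≤ 3 * (n : ℤ) ^ 300 := by
    unfold sW
    rw [abs_le]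
    constructor <;> linarith [h1.1, h1.2, h2.1, h2.2, h3.1, h3.2]
  zify
  exact h4

/-- a budget `F` of false candidates that suffices -/
def GoodF (n b F : ℕ) : Prop :=
  n ^ 3 ≤ F ∨ (1 ≤ b ∧ 12 * n ^ 3 * b * Nat.log 2 (3 * n ^ 300) < (F + 1) * 2 ^ b)

theorem upAlg_decides {b d F : ℕ} (hd : 1 ≤ d) (hF : GoodF n b F) :
    (upAlg n b d (F / d + 2)).Decides := by
  classical
  intro I hI
  have hsub : (univ.filter fun ρ : Fin b → Bool => ¬ F < falseCount ρ I) ⊆
      univ.filter fun ρ : Fin b → Bool => ((upAlg n b d (F / d + 2)).output I ρ = true ↔ I.Yes) := by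
    intro ρ hρ
    rw [mem_filter] at hρ ⊢
    exact ⟨Finset.mem_univ _, output_iff hd ρ hI (not_lt.mp hρ.2)⟩
  refine le_trans ?_ (Nat.mul_le_mul_left 3 (Finset.card_le_card hsub))
  have htot : (univ.filter fun ρ : Fin b → Bool => F < falseCount ρ I).card +
      (univ.filter fun ρ : Fin b → Bool => ¬ F < falseCount ρ I).card = 2 ^ b := by
    rw [Finset.card_filter_add_card_filter_not]
    simp
  have hbad : 3 * (univ.filter fun ρ : Fin b → Bool => F < falseCount ρ I).card ≤ 2 ^ b := by
    rcases hF with hF | ⟨hb, hF⟩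
    · have : (univ.filter fun ρ : Fin b → Bool => F < falseCount ρ I) = ∅ := by
        rw [Finset.filter_eq_empty_iff]
        intro ρ _
        rw [not_lt]
        exact (falseCount_le_cube ρ I).trans hF
      rw [this]; simp
    · refine le_trans (Nat.mul_le_mul_left 3 (Finset.card_le_card ?_))
        (few_false hb (univ.filter fun T : Fin n × Fin n × Fin n => IsTri I.flag T) (sW I)
          (B := 3 * n ^ 300) (fun T _ => sW_le hI T))
      intro ρ hρ
      rw [mem_filter] at hρ ⊢
      refine ⟨Finset.mem_univ _, lt_of_le_of_lt ?_ (by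
        have := hρ.2
        rw [falseCount_eq hb ρ hI] at this
        exact this)⟩
      have hc : (univ.filter fun T : Fin n × Fin n × Fin n => IsTri I.flag T).card ≤ n ^ 3 := by
        refine (Finset.card_le_univ _).trans ?_
        simp only [Fintype.card_prod, Fintype.card_fin]
        apply le_of_eq
        ring
      have h1 : 12 * (univ.filter fun T : Fin n × Fin n × Fin n => IsTri I.flag T).card * b *
          Nat.log 2 (3 * n ^ 300) < (F + 1) * 2 ^ b := by
        refine lt_of_le_of_lt ?_ hF
        gcongr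
      have h2 := (Nat.div_lt_iff_lt_mul (show 0 < 2 ^ b by positivity)).mpr h1
      omega
  omega

theorem upAlg_admissible {b d D e : ℕ} (he : 2 ^ b ≤ n ^ e) :
    (upAlg n b d D).Admissible d 0 0 e := by
  classical
  refine ⟨?_, ?_, ?_⟩
  · intro fl ρ ans f h
    unfold upAlg at h
    simp only at h
    split_ifs at h
    · simp only [Act.query.injEq, Query.value.injEq] at h
      rw [← h]
      exact totalDegree_poly _ _ _ _ _ _
  · intro fl ρ ans a c h
    unfold upAlg at h
    simp only at h
    split_ifs at h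
    · simp at h
  · rcases Nat.eq_zero_or_pos b with hb | hb
    · subst hb
      refine ⟨fun _ _ => 1, fun _ _ => ⟨le_rfl, by simpa using he⟩, ?_⟩
      intro fl ρ ans i j φ h
      unfold upAlg at h
      simp only at h
      rw [dif_neg (by simp)] at h
      simp at h
    · refine ⟨fun _ ρ => hashPrime b ρ, fun _ ρ => ⟨(hashPrime_prime hb ρ).pos,
        (hashPrime_le hb ρ).trans he⟩, ?_⟩
      intro fl ρ ans i j φ h z
      unfold upAlg at h
      simp only at h
      split_ifs at h
      · simp only [Act.bit.injEq] at h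
        rw [← h.2.2]
        simp
  
theorem upAlg_within {b d D : ℕ} : (upAlg n b d D).Within D b := by
  classical
  intro I _ ρ
  have hlen : ∀ t, t < nC n * b → ((upAlg n b d D).run I ρ t).1.length = t := by
    intro t ht
    rw [run_phase1 b d D ρ I t ht.le]
    simp
  have hlen2 : ∀ t, nC n * b ≤ t → ((upAlg n b d D).run I ρ t).1.length = t := by
    intro t ht
    obtain ⟨as, h1, h2, _⟩ := run_phase2 b d D ρ I (t - nC n * b)
    rw [Nat.add_sub_cancel' ht] at h1
    rw [h1, List.length_append, length_bitList, h2]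
    omega
  have hbit : ∀ t (ht : t < nC n * b), ∃ φ,
      (upAlg n b d D).next I.flag ρ ((upAlg n b d D).run I ρ t).1 =
        Act.bit (cellAt b t ht).1.1 (cellAt b t ht).1.2 φ := by
    intro t ht
    have h1 : ∀ (ans : List ℕ) (hl : ans.length = t), ∃ φ,
        (upAlg n b d D).next I.flag ρ ans =
        Act.bit (cellAt b t ht).1.1 (cellAt b t ht).1.2 φ := by
      intro ans hl
      subst hl
      unfold upAlg
      simp only
      rw [dif_pos ht]
      exact ⟨_, rfl⟩
    exact h1 _ (hlen t ht)
  have hqry : ∀ t, nC n * b ≤ t → ∃ q,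
      (upAlg n b d D).next I.flag ρ ((upAlg n b d D).run I ρ t).1 = Act.query q := by
    intro t ht
    unfold upAlg
    simp only
    rw [dif_neg]
    · exact ⟨_, rfl⟩
    · have := hlen2 t ht
      unfold upAlg at this
      omega
  constructor
  · unfold LAlg.queries
    have : ((Finset.range (nC n * b + D)).filter fun t =>
        ∃ q, (upAlg n b d D).next I.flag ρ ((upAlg n b d D).run I ρ t).1 = Act.query q) ⊆
        Finset.Ico (nC n * b) (nC n * b + D) := by
      intro t ht
      rw [mem_filter, Finset.mem_range] at ht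
      rw [Finset.mem_Ico]
      refine ⟨?_, ht.1⟩
      by_contra hcon
      obtain ⟨φ, hφ⟩ := hbit t (not_le.mp hcon)
      obtain ⟨q, hq⟩ := ht.2
      rw [hφ] at hq
      simp at hq
    refine (Finset.card_le_card this).trans ?_
    rw [Nat.card_Ico]
    omega
  · intro i j
    unfold LAlg.bits
    by_cases hb : b = 0
    · apply le_of_eq
      subst hb
      rw [Finset.card_eq_zero, Finset.filter_eq_empty_iff]
      rintro t _ ⟨φ, hφ⟩
      obtain ⟨q, hq⟩ := hqry t (by simp)
      rw [hq] at hφ
      simp at hφ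
    · have hb' : 0 < b := Nat.pos_of_ne_zero hb
      by_cases hij : i = j
      · apply le_of_eq_of_le _ (Nat.zero_le b)
        rw [Finset.card_eq_zero, Finset.filter_eq_empty_iff]
        rintro t _ ⟨φ, hφ⟩
        by_cases ht : t < nC n * b
        · obtain ⟨φ', h1⟩ := hbit t ht
          rw [h1] at hφ
          simp only [Act.bit.injEq] at hφ
          have h2 := (cellAt b t ht).2
          rcases hφ with h | h
          · rw [h.1, h.2.1, hij] at h2
            exact lt_irrefl _ h2
          · rw [h.1, h.2.1, hij] at h2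
            exact lt_irrefl _ h2
        · obtain ⟨q, hq⟩ := hqry t (not_lt.mp ht)
          rw [hq] at hφ
          simp at hφ
      · -- the cell `{i, j}`
        obtain ⟨e, he⟩ : ∃ e : Cell n, ∀ e' : Cell n,
            ((e'.1.1 = i ∧ e'.1.2 = j) ∨ (e'.1.1 = j ∧ e'.1.2 = i)) → e' = e := by
          rcases lt_or_gt_of_ne hij with h | h
          · refine ⟨⟨(i, j), h⟩, ?_⟩
            rintro ⟨⟨x, y⟩, hxy⟩ h2
            simp only at h2 hxy
            rcases h2 with ⟨rfl, rfl⟩ | ⟨rfl, rfl⟩
            · rfl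
            · exact absurd h (not_lt.mpr hxy.le)
          · refine ⟨⟨(j, i), h⟩, ?_⟩
            rintro ⟨⟨x, y⟩, hxy⟩ h2
            simp only at h2 hxy
            rcases h2 with ⟨rfl, rfl⟩ | ⟨rfl, rfl⟩
            · exact absurd h (not_lt.mpr hxy.le)
            · rfl
        have hsub : ((Finset.range (nC n * b + D)).filter fun t =>
            ∃ φ, (upAlg n b d D).next I.flag ρ ((upAlg n b d D).run I ρ t).1 = Act.bit i j φ ∨
              (upAlg n b d D).next I.flag ρ ((upAlg n b d D).run I ρ t).1 = Act.bit j i φ) ⊆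
            Finset.Ico (cidx e * b) (cidx e * b + b) := by
          intro t ht
          rw [mem_filter] at ht
          obtain ⟨_, φ, hφ⟩ := ht
          by_cases htt : t < nC n * b
          · obtain ⟨φ', h1⟩ := hbit t htt
            rw [h1] at hφ
            simp only [Act.bit.injEq] at hφ
            have h2 : cellAt b t htt = e := he _ (by
              rcases hφ with h | h
              · exact Or.inl ⟨h.1, h.2.1⟩
              · exact Or.inr ⟨h.1, h.2.1⟩)
            have h3 : t / b = cidx e := by
              rw [← h2]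
              unfold cidx cellAt
              rw [Equiv.apply_symm_apply]
            have h4 := Nat.div_add_mod t b
            have h5 := Nat.mod_lt t hb'
            rw [Finset.mem_Ico]
            rw [h3, Nat.mul_comm] at h4
            omega
          · obtain ⟨q, hq⟩ := hqry t (not_lt.mp htt)
            rw [hq] at hφ
            simp at hφ
        refine (Finset.card_le_card hsub).trans ?_
        rw [Nat.card_Ico]
        omega

/-- **Upper bound.** With `b` digest bits per weight (modulus at most `n ^ e`), `F / d + 2` value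
queries of degree at most `d` suffice, for every good budget `F`. -/
theorem upper_bound {n b d e F : ℕ} (hd : 1 ≤ d) (he : 2 ^ b ≤ n ^ e) (hF : GoodF n b F) :
    ∃ L, ∃ A : LAlg n L b, A.Admissible d 0 0 e ∧ A.Within (F / d + 2) b ∧ A.Decides :=
  ⟨_, upAlg n b d (F / d + 2), upAlg_admissible he, upAlg_within, upAlg_decides hd hF⟩

/-- without digests: `n ^ 3 / d + 2` value queries, deterministically -/
theorem upper_bound_zero (n d : ℕ) (hd : 1 ≤ d) :
    ∃ L, ∃ A : LAlg n L 0, A.Admissible d 0 0 0 ∧ A.Within (n ^ 3 / d + 2) 0 ∧ A.Decides :=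
  upper_bound hd (by simp) (Or.inl le_rfl)

/-- with `b ≥ 1` digest bits per weight: at most `2 ^ 12 n ^ 3 b log₂ n / (d 2 ^ b) + 2` value
queries -/
theorem upper_bound_bits {n b d e : ℕ} (hn : 2 ≤ n) (hb : 1 ≤ b) (hd : 1 ≤ d)
    (he : 2 ^ b ≤ n ^ e) :
    ∃ D L, ∃ A : LAlg n L b, A.Admissible d 0 0 e ∧ A.Within D b ∧ A.Decides ∧
      (D : ℝ) ≤ 2 ^ 12 * (n : ℝ) ^ 3 * b * Real.logb 2 n / (d * 2 ^ b) + 2 := by
  set L' := Nat.log 2 (3 * n ^ 300) with hL'
  set F := 12 * n ^ 3 * b * L' / 2 ^ b with hF
  have hgood : GoodF n b F := by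
    right
    refine ⟨hb, ?_⟩
    have h3 := Nat.div_add_mod (12 * n ^ 3 * b * L') (2 ^ b)
    have h4 := Nat.mod_lt (12 * n ^ 3 * b * L') (show 0 < 2 ^ b by positivity)
    rw [← hF] at h3
    have : (F + 1) * 2 ^ b = 2 ^ b * F + 2 ^ b := by ring
    rw [← hL']
    omega
  obtain ⟨L, A, h1, h2, h3⟩ := upper_bound (e := e) hd he hgood
  refine ⟨F / d + 2, L, A, h1, h2, h3, ?_⟩
  have hn0 : (0 : ℝ) < n := by exact_mod_cast (by omega : 0 < n)
  have hlog : (1 : ℝ) ≤ Real.logb 2 n := by
    rw [Real.le_logb_iff_rpow_le (by norm_num) hn0, Real.rpow_one]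
    exact_mod_cast hn
  have hLle : (L' : ℝ) ≤ 302 * Real.logb 2 n := by
    have h5 : (L' : ℝ) ≤ Real.logb 2 ((3 * n ^ 300 : ℕ) : ℝ) := by
      have := Real.natLog_le_logb (3 * n ^ 300) 2
      exact_mod_cast this
    have h6 : Real.logb 2 ((3 * n ^ 300 : ℕ) : ℝ) = Real.logb 2 3 + 300 * Real.logb 2 n := by
      push_cast
      rw [Real.logb_mul (by norm_num) (by positivity), Real.logb_pow]
      norm_num
    have h7 : Real.logb 2 3 ≤ 2 := by
      rw [Real.logb_le_iff_le_rpow (by norm_num) (by norm_num)]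
      norm_num
    linarith
  have hF1 : (F : ℝ) ≤ (12 * (n : ℝ) ^ 3 * b * L') / 2 ^ b := by
    have : ((12 * n ^ 3 * b * L' / 2 ^ b : ℕ) : ℝ) ≤
        ((12 * n ^ 3 * b * L' : ℕ) : ℝ) / ((2 ^ b : ℕ) : ℝ) := Nat.cast_div_le
    rw [← hF] at this
    push_cast at this
    exact this
  have hFd : ((F / d : ℕ) : ℝ) ≤ (F : ℝ) / d := Nat.cast_div_le
  have hd0 : (0 : ℝ) < d := by exact_mod_cast hd
  have hpos : (0 : ℝ) ≤ 12 * (n : ℝ) ^ 3 * b := by positivity
  push_cast
  have h8 : (F : ℝ) ≤ 2 ^ 12 * (n : ℝ) ^ 3 * b * Real.logb 2 n / 2 ^ b := by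
    refine hF1.trans ?_
    apply div_le_div_of_nonneg_right _ (by positivity)
    calc 12 * (n : ℝ) ^ 3 * b * L' ≤ 12 * (n : ℝ) ^ 3 * b * (302 * Real.logb 2 n) :=
          mul_le_mul_of_nonneg_left hLle hpos
      _ = 3624 * ((n : ℝ) ^ 3 * b * Real.logb 2 n) := by ring
      _ ≤ 4096 * ((n : ℝ) ^ 3 * b * Real.logb 2 n) := by
          apply mul_le_mul_of_nonneg_right (by norm_num)
          have : (0 : ℝ) ≤ Real.logb 2 n := by linarith
          positivity
      _ = 2 ^ 12 * (n : ℝ) ^ 3 * b * Real.logb 2 n := by ring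
  have h9 : (F : ℝ) / d ≤ 2 ^ 12 * (n : ℝ) ^ 3 * b * Real.logb 2 n / (d * 2 ^ b) := by
    calc (F : ℝ) / d ≤ (2 ^ 12 * (n : ℝ) ^ 3 * b * Real.logb 2 n / 2 ^ b) / d :=
          div_le_div_of_nonneg_right h8 hd0.le
      _ = 2 ^ 12 * (n : ℝ) ^ 3 * b * Real.logb 2 n / (d * 2 ^ b) := by
          rw [div_div]; ring_nf
  linarith

end Pool.Agent.Helper93.LK
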